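import Mathlib
import Pool.Agent.V11110.WittHopf

/-!
An affine Hopf algebra with non-injective Arens-Michael enveloping homomorphism: the universal
enveloping algebra of the Lie algebra of derivations of `ℂ[X]`.
-/

open Pool.Agent.V11110.UEA Pool.Agent.V11110.Witt

namespace Pool.Agent.Results.MP_f83094_an.NotInjective

/-- `h` lies in the kernel of the Arens-Michael enveloping homomorphism of `H`: every
submultiplicative seminorm on `H` vanishes at `h`. -/
def InKernel (H : Type*) [Ring H] [Algebra ℂ H] (h : H) : Prop :=
  ∀ p : Seminorm ℂ H, (∀ a b : H, p (a * b) ≤ p a * p b) → p h = 0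

/-- **Negative answer.**  There is a complex Hopf algebra `H`, finitely generated as an algebra,
with a nonzero element `h` such that `p h = 0` for every submultiplicative seminorm `p` on `H`. -/
theorem result :
    ∃ (H : Type) (_ : Ring H) (_ : HopfAlgebra ℂ H),
      Algebra.FiniteType ℂ H ∧ ∃ h : H, h ≠ 0 ∧ InKernel H h :=
  ⟨UW, inferInstance, inferInstance, finiteType, ι (R := ℂ) (D 0), ι_ne_zero,
    fun p hp => seminorm_ι p hp (D 0)⟩

end Pool.Agent.Results.MP_f83094_an.NotInjective
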